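import Pool.Agent.X55.Fam.Adm

/-!
# Pairs of almost primes between consecutive odd squares with prescribed digital functions

Let `S` be a strongly `b`-additive function with values in a finite abelian group `G` (for example the sum of the
digits in base `b`, or any vector of numbers of occurrences of nonzero digits, modulo some integers), which is not
degenerate: no nontrivial character of the group makes it a function of the residue of `n` modulo `b - 1`.
The sum of two numbers which are symmetric in the interval from `(2 k - 1) ^ 2` to `(2 k + 1) ^ 2` is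
`(2 k - 1) ^ 2 + (2 k + 1) ^ 2 = 8 k ^ 2 + 2`. We consider the `n` in an interval `(M, M + H]` between these squares
with `S n = g` for which both `n` and `8 k ^ 2 + 2 - n` have a bounded number of prime factors, all greater than `H ^ δ`: their
number has the expected order of magnitude, and the number of those for which both are primes is at most of this order;
the constants do not depend on `k`. The number of those for which neither has a prime factor up to `y` is given by an
asymptotic formula, uniformly in `k`.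
The proof combines a sieve which is uniform in the removed residue classes and the exponential sums of digital
functions (in the starting files), over the blocks of a short interval.
-/

set_option autoImplicit false

namespace Pool.Agent.Results.MP_3a3367_nt.DigitalFunctions

open Finset Pool.Agent.X55.Forms

/-- the coefficients of the two forms -/
def ca : Fin 2 → ℤ := ![1, -1]

/-- the constants of the two forms `n` and `8 k ^ 2 + 2 - n` -/
def cb (k : ℕ) : Fin 2 → ℤ := ![0, 8 * (k : ℤ) ^ 2 + 2]

lemma ca_ne (i : Fin 2) : ca i ≠ 0 := by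
  fin_cases i <;> simp [ca]

lemma adm (k : ℕ) : Admissible ca (cb k) := adm2 0 _ ⟨-(4 * (k : ℤ) ^ 2 + 1), by ring⟩

theorem result : ∀ (G : Type) [AddCommGroup G] [Fintype G] (b : ℕ) (S : ℕ → G), 2 ≤ b → Digital b S → 
    (∀ B : ℕ, ∃ (r : ℕ) (δ c C : ℝ) (H₀ : ℕ), 0 < δ ∧ 0 < c ∧ 0 < C ∧
      ∀ H : ℕ, H₀ ≤ H → ∀ (k : ℕ), 1 ≤ k → ∀ (M : ℕ) (g : G), (2 * k - 1) ^ 2 ≤ M ∧ M + H < (2 * k + 1) ^ 2 → 
      Bounds (ca) (cb k) H r δ c C B M H (fun n => S n = g) (H / Fintype.card G)) ∧
    -- the asymptotic formula
    (∀ η : ℝ, 0 < η → ∃ (δ : ℝ) (H₀ : ℕ), 0 < δ ∧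
      ∀ H : ℕ, H₀ ≤ H → ∀ (k : ℕ), 1 ≤ k → ∀ (M : ℕ) (g : G), (2 * k - 1) ^ 2 ≤ M ∧ M + H < (2 * k + 1) ^ 2 → 
      ∀ y : ℕ, 3 ≤ y → (y : ℝ) ≤ (H : ℝ) ^ δ →
      Rough (ca) (cb k) η y M H (fun n => S n = g) (H / Fintype.card G)) := by
  intro G _ _ b S hb hS 
  refine ⟨fun B => ?_, fun η hη => ?_⟩
  · obtain ⟨r, δ, c, C, H₀, hδ, hc, hC, h⟩ := digital b hb S hS (2) (by norm_num) B
    refine ⟨r, δ, c, C, H₀, hδ, hc, hC, ?_⟩
    intro H hH k _ M g _
    exact h H hH (ca) (cb k) (ca_ne) (adm k) M g
  · obtain ⟨δ, H₀, hδ, h⟩ := digitalA b hb S hS (2) (by norm_num) η hη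
    refine ⟨δ, H₀, hδ, ?_⟩
    intro H hH k _ M g _ y hy hyH
    exact h H hH (ca) (cb k) (adm k) M g y hy hyH

end Pool.Agent.Results.MP_3a3367_nt.DigitalFunctions
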