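import Pool.Agent.X55.Fam.Adm

/-!
# Pairs of almost primes between consecutive odd squares with prescribed residues modulo a large prime

Let `P` be a large prime. The sum of two numbers which are symmetric in the interval from `(2 k - 1) ^ 2` to `(2 k + 1) ^ 2` is
`(2 k - 1) ^ 2 + (2 k + 1) ^ 2 = 8 k ^ 2 + 2`. We consider the `n` in an interval `(M, M + H]` between these squares
for which the residue of `n` modulo `P` is restricted for which both `n` and `8 k ^ 2 + 2 - n` have a bounded number of prime factors, all greater than `P ^ δ`: their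
number has the expected order of magnitude, and the number of those for which both are primes is at most of this order;
the constants do not depend on `k`. The number of those for which neither has a prime factor up to `y` is given by an
asymptotic formula, uniformly in `k`.
This holds for the `n`
* of an ARBITRARY set `A` of residues modulo `P` whose Fourier coefficients are at most `Γ`, in ARBITRARY intervals of
  a length `H ≤ P` with `|A| H ≥ Γ P ^ (1 + ε)`;
* of a coset of a subgroup `S` of the residues, in the intervals of a length `H ≤ P` with `|S| H ≥ P ^ (3 / 2 + ε)`;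
* which are primitive roots of `P`, in the intervals of a length `H` with `P ^ (1 / 2 + ε) ≤ H ≤ P`;
* which are on the modular hyperbola `n m = u` modulo `P` with `n` and `m` in intervals of the lengths `H`, `K ≤ P` with
  `H K ≥ P ^ (3 / 2 + ε)`.

The proof combines a sieve which is uniform in the removed residue classes, incomplete sums, Weil's bound for the
Kloosterman sums and a Moebius formula for primitive roots.
-/

set_option autoImplicit false

namespace Pool.Agent.Results.MP_3a3367_nt.ResiduesModuloPrimes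

open Finset Pool.Agent.X55.Forms

/-- the coefficients of the two forms -/
def ca : Fin 2 → ℤ := ![1, -1]

/-- the constants of the two forms `n` and `8 k ^ 2 + 2 - n` -/
def cb (k : ℕ) : Fin 2 → ℤ := ![0, 8 * (k : ℤ) ^ 2 + 2]

lemma ca_ne (i : Fin 2) : ca i ≠ 0 := by
  fin_cases i <;> simp [ca]

lemma adm (k : ℕ) : Admissible ca (cb k) := adm2 0 _ ⟨-(4 * (k : ℤ) ^ 2 + 1), by ring⟩

theorem result :
    (∀ ε : ℝ, 0 < ε → ∀ B : ℕ, ∃ (r : ℕ) (δ c C : ℝ) (P₀ : ℕ), 0 < δ ∧ 0 < c ∧ 0 < C ∧
      ∀ P : ℕ, P₀ ≤ P → ∀ [Fact P.Prime] (k : ℕ), 1 ≤ k →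
      Residues ε P (fun M H R X => (2 * k - 1) ^ 2 ≤ M ∧ M + H < (2 * k + 1) ^ 2 → Bounds (ca) (cb k) P r δ c C B M H R X)) ∧
    -- the asymptotic formula
    (∀ ε η : ℝ, 0 < ε → 0 < η → ∃ (δ : ℝ) (P₀ : ℕ), 0 < δ ∧
      ∀ P : ℕ, P₀ ≤ P → ∀ [Fact P.Prime] (k : ℕ), 1 ≤ k → ∀ y : ℕ, 3 ≤ y → (y : ℝ) ≤ (P : ℝ) ^ δ →
      Sets ε P (fun M H R X => (2 * k - 1) ^ 2 ≤ M ∧ M + H < (2 * k + 1) ^ 2 → Rough (ca) (cb k) η y M H R X)) := by

  refine ⟨fun ε hε B => ?_, fun ε η hε hη => ?_⟩
  · obtain ⟨r, δ, c, C, P₀, hδ, hc, hC, h⟩ := residues (2) (by norm_num) ε hε B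
    refine ⟨r, δ, c, C, P₀, hδ, hc, hC, ?_⟩
    intro P hP _ k _
    exact (h P hP (ca) (cb k) (ca_ne) (adm k)).mono fun M H R X _ hQ _ => hQ
  · obtain ⟨δ, P₀, hδ, h⟩ := residuesA (2) (by norm_num) ε η hε hη
    refine ⟨δ, P₀, hδ, ?_⟩
    intro P hP _ k _ y hy hyP
    exact (h P hP (ca) (cb k) (adm k) y hy hyP).mono fun M H R X _ hQ _ => hQ

end Pool.Agent.Results.MP_3a3367_nt.ResiduesModuloPrimes
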