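import Mathlib
import Pool.Agent.X58.IV.Win

set_option autoImplicit false

/-!
# Patterns of almost primes between consecutive odd squares which are symmetric to the centre

The interval `((2 K - 1)², (2 K + 1)²)` has the centre `D = 4 K² + 1` and the half length `4 K`.  Let `S` be an
arbitrary admissible set of at most `k` integers (for instance `S = {0}`) and `(A, A + X]` an arbitrary window of
length `X ≥ K ^ θ` such that all `D ± (n + s)`, `n` in the window, `s ∈ S`, are in the interval.  The number of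
the `n` of the window for which ALL `D + (n + s)` and `D - (n + s)`, `s ∈ S`, are products of at most `2 t`
primes, all of them `> (8 K) ^ (1 / t)`, has the conjectured order of magnitude of the number of the `n` for which
they are prime, and every subset of positive relative density contains arithmetic progressions of any length `m`
with differences `≤ (log 8K) ^ B`.
-/

namespace Pool.Agent.Results.MP_3a3367_nt.SymmetricPatterns

open Finset Pool.Agent.X58.IV

/-- the centre of the interval between `(2 K - 1) ^ 2` and `(2 K + 1) ^ 2` -/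
def centre (K : ℕ) : ℤ := 4 * (K : ℤ) ^ 2 + 1

/-- no prime divides `∏ (D ^ 2 - (n + s) ^ 2)` for all `n` -/
def Admissible (D : ℤ) (S : Finset ℤ) : Prop :=
  ∀ p : ℕ, p.Prime → ∃ n : ℕ, ¬ (p : ℤ) ∣ ∏ s ∈ S, (D ^ 2 - ((n : ℤ) + s) ^ 2)

/-- the number of the classes `n` modulo `p` with `p ∣ ∏ (D ^ 2 - (n + s) ^ 2)` -/
noncomputable def omega (D : ℤ) (S : Finset ℤ) (p : ℕ) : ℕ :=
  ((range p).filter (fun n : ℕ => (p : ℤ) ∣ ∏ s ∈ S, (D ^ 2 - ((n : ℤ) + s) ^ 2))).card

/-- the product of the local densities `1 - omega D S p / p` over the primes `p ≤ N` -/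
noncomputable def V (D : ℤ) (S : Finset ℤ) (N : ℕ) : ℝ :=
  ∏ p ∈ (Icc 1 N).filter Nat.Prime, (1 - (omega D S p : ℝ) / p)

open Classical in
/-- the `n` of `(A, A + X]` for which all `D + (n + s)` and `D - (n + s)`, `s ∈ S`, are products of at most `2 t`
primes, all of them `> (8 K) ^ (1 / t)`, `D = 4 K ^ 2 + 1` -/
noncomputable def Good (S : Finset ℤ) (t K A X : ℕ) : Finset ℕ :=
  (Ioc A (A + X)).filter (fun n : ℕ => ∀ s ∈ S,
    Almost (2 * t) (((8 * K : ℕ) : ℝ) ^ (1 / (t : ℝ))) (centre K + ((n : ℤ) + s)) ∧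
    Almost (2 * t) (((8 * K : ℕ) : ℝ) ^ (1 / (t : ℝ))) (centre K - ((n : ℤ) + s)))

/-- the linear forms -/
def FF (D : ℤ) (S : Finset ℤ) : Finset (ℤ × ℤ) :=
  S.image (fun s => ((1 : ℤ), D + s)) ∪ S.image (fun s => ((-1 : ℤ), D - s))

lemma dvd_iff (D : ℤ) (S : Finset ℤ) {p : ℕ} (hp : p.Prime) (n : ℕ) :
    (∃ L ∈ FF D S, (p : ℤ) ∣ L.1 * (n : ℤ) + L.2) ↔ (p : ℤ) ∣ ∏ s ∈ S, (D ^ 2 - ((n : ℤ) + s) ^ 2) := by
  have hp' : Prime (p : ℤ) := Nat.prime_iff_prime_int.1 hp
  rw [Prime.dvd_finsetProd_iff hp']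
  constructor
  · rintro ⟨L, hL, hd⟩
    rcases mem_union.1 hL with h | h
    · obtain ⟨s, hs, rfl⟩ := mem_image.1 h
      refine ⟨s, hs, ?_⟩
      have e : D ^ 2 - ((n : ℤ) + s) ^ 2 = (1 * (n : ℤ) + (D + s)) * (D - n - s) := by ring
      rw [e]
      exact hd.mul_right _
    · obtain ⟨s, hs, rfl⟩ := mem_image.1 h
      refine ⟨s, hs, ?_⟩
      have e : D ^ 2 - ((n : ℤ) + s) ^ 2 = (-1 * (n : ℤ) + (D - s)) * (D + n + s) := by ring
      rw [e]
      exact hd.mul_right _
  · rintro ⟨s, hs, hd⟩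
    have e : D ^ 2 - ((n : ℤ) + s) ^ 2 = (1 * (n : ℤ) + (D + s)) * (-1 * (n : ℤ) + (D - s)) := by ring
    rw [e] at hd
    rcases hp'.dvd_or_dvd hd with h | h
    · exact ⟨_, mem_union_left _ (mem_image_of_mem _ hs), h⟩
    · exact ⟨_, mem_union_right _ (mem_image_of_mem _ hs), h⟩

theorem result (k : ℕ) (θ : ℝ) (hθ : 0 < θ) : ∃ (t₀ : ℕ) (c : ℝ), 1 ≤ t₀ ∧ 0 < c ∧
    ∀ t : ℕ, t₀ ≤ t → ∃ C : ℝ, 0 < C ∧ ∀ (m : ℕ) (ρ : ℝ), 0 < ρ → ∃ B K₀ : ℕ, ∀ K A X : ℕ, K₀ ≤ K →
      (K : ℝ) ^ θ ≤ X → ∀ S : Finset ℤ, S.Nonempty → S.card ≤ k → Admissible (centre K) S →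
      (∀ s ∈ S, -(4 * K : ℤ) ≤ A + s ∧ (A : ℤ) + X + s < 4 * K) →
      c / Real.log (8 * K) ^ (2 * k) ≤ V (centre K) S (8 * K) ∧
      c * X * V (centre K) S (8 * K) ≤ ((Good S t K A X).card : ℝ) ∧
      ((Good S t K A X).card : ℝ) ≤ C * X * V (centre K) S (8 * K) ∧
      ∀ U ⊆ Good S t K A X, ρ * ((Good S t K A X).card : ℝ) ≤ U.card →
        ∃ a d : ℕ, 1 ≤ d ∧ (d : ℝ) ≤ Real.log (8 * K) ^ B ∧ ∀ j < m, a + j * d ∈ U := by
  classical
  obtain ⟨t₀, c, ht₀, hc, hV, h⟩ := window (2 * k) 2 (θ / 2) (by positivity)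
  refine ⟨t₀, c, ht₀, hc, fun t ht => ?_⟩
  obtain ⟨C, hC, h2⟩ := h t ht
  refine ⟨C, hC, fun m ρ hρ => ?_⟩
  obtain ⟨B, N₀, h3⟩ := h2 m ρ hρ
  refine ⟨B, max N₀ 8, fun K A X hK hX S hS0 hS hadm hval => ?_⟩
  have hK8 : 8 ≤ K := (le_max_right _ _).trans hK
  have hKN : N₀ ≤ 8 * K := by have := (le_max_left N₀ 8).trans hK; omega
  have hK0 : (0 : ℝ) < K := by exact_mod_cast (by omega : 0 < K)
  have hXN : X ≤ 8 * K := by
    obtain ⟨s, hs⟩ := hS0
    have := hval s hs
    omega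
  have hX' : ((8 * K : ℕ) : ℝ) ^ (θ / 2) ≤ X := by
    refine le_trans ?_ hX
    calc ((8 * K : ℕ) : ℝ) ^ (θ / 2) ≤ ((K : ℝ) ^ (2 : ℝ)) ^ (θ / 2) := by
          apply Real.rpow_le_rpow (by positivity) _ (by positivity)
          rw [show (2 : ℝ) = ((2 : ℕ) : ℝ) by norm_num, Real.rpow_natCast]
          have : (8 : ℝ) ≤ K := by exact_mod_cast hK8
          push_cast
          nlinarith
      _ = (K : ℝ) ^ θ := by
          rw [← Real.rpow_mul hK0.le]
          congr 1
          ring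
  have hcardF : (FF (centre K) S).card ≤ 2 * k := by
    refine (card_union_le _ _).trans ?_
    have h4 := card_image_le (s := S) (f := fun s => ((1 : ℤ), centre K + s))
    have h5 := card_image_le (s := S) (f := fun s => ((-1 : ℤ), centre K - s))
    omega
  have hcop : ∀ L ∈ FF (centre K) S, IsCoprime L.1 L.2 := by
    intro L hL
    rcases mem_union.1 hL with h | h
    · obtain ⟨s, _, rfl⟩ := mem_image.1 h
      exact isCoprime_one_left
    · obtain ⟨s, _, rfl⟩ := mem_image.1 h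
      exact isCoprime_one_left.neg_left
  have hloc : Locally (FF (centre K) S) := by
    intro p hp
    obtain ⟨n, hn⟩ := hadm p hp
    exact ⟨n, fun L hL hd => hn ((dvd_iff _ S hp n).1 ⟨L, hL, hd⟩)⟩
  have hvol : Vol (FF (centre K) S) (8 * K) = V (centre K) S (8 * K) := by
    unfold Vol V
    have : (Icc 1 (8 * K) : Finset ℕ) = Ioc 0 (8 * K) := by
      ext n; rw [mem_Icc, mem_Ioc]; omega
    rw [this]
    apply prod_congr rfl
    intro p hp
    have hpp := (mem_filter.1 hp).2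
    have : om (FF (centre K) S) p = omega (centre K) S p := by
      unfold om omega ZF
      congr 1
      apply filter_congr
      intro n _
      exact dvd_iff _ S hpp n
    rw [this]
  have hwin : Win (FF (centre K) S) 2 t (8 * K) A X = Good S t K A X := by
    unfold Win Good
    apply filter_congr
    intro n _
    constructor
    · intro h s hs
      have h6 := h _ (mem_union_left _ (mem_image_of_mem _ hs))
      have h7 := h _ (mem_union_right _ (mem_image_of_mem _ hs))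
      have e1 : 1 * (n : ℤ) + (centre K + s) = centre K + ((n : ℤ) + s) := by ring
      have e2 : -1 * (n : ℤ) + (centre K - s) = centre K - ((n : ℤ) + s) := by ring
      simp only at h6 h7
      rw [e1] at h6
      rw [e2] at h7
      exact ⟨h6, h7⟩
    · intro h L hL
      rcases mem_union.1 hL with h8 | h8
      · obtain ⟨s, hs, rfl⟩ := mem_image.1 h8
        have e1 : 1 * (n : ℤ) + (centre K + s) = centre K + ((n : ℤ) + s) := by ring
        simp only
        rw [e1]
        exact (h s hs).1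
      · obtain ⟨s, hs, rfl⟩ := mem_image.1 h8
        have e2 : -1 * (n : ℤ) + (centre K - s) = centre K - ((n : ℤ) + s) := by ring
        simp only
        rw [e2]
        exact (h s hs).2
  have hKz : (8 : ℤ) ≤ K := by exact_mod_cast hK8
  have hb := hV (FF (centre K) S) hcardF hcop hloc (8 * K) (by omega)
  have hm := h3 (8 * K) A X hKN hX' hXN (FF (centre K) S) hcardF hcop hloc (by
    intro L hL n hn1 hn2
    have hn1' : (A : ℤ) < n := by exact_mod_cast hn1
    have hn2' : (n : ℤ) ≤ A + X := by exact_mod_cast hn2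
    have hsq : (8 : ℤ) * K ≤ (K : ℤ) ^ 2 := by nlinarith
    have hE : ((8 * K : ℕ) : ℤ) ^ 2 = 64 * (K : ℤ) ^ 2 := by push_cast; ring
    rw [hE]
    unfold centre at hL
    rcases mem_union.1 hL with h8 | h8
    · obtain ⟨s, hs, rfl⟩ := mem_image.1 h8
      obtain ⟨h9, h10⟩ := hval s hs
      simp only
      constructor <;> linarith
    · obtain ⟨s, hs, rfl⟩ := mem_image.1 h8
      obtain ⟨h9, h10⟩ := hval s hs
      simp only
      constructor <;> linarith)
  rw [hvol] at hb hm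
  rw [hwin] at hm
  push_cast at hb
  refine ⟨hb, hm.1, hm.2.1, fun U hU hUc => ?_⟩
  obtain ⟨a, d, h1, h2, h3⟩ := hm.2.2 U hU hUc
  push_cast at h2
  exact ⟨a, d, h1, h2, h3⟩

end Pool.Agent.Results.MP_3a3367_nt.SymmetricPatterns
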